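import Pool.Agent.H47.SQ.Targets
import Pool.Agent.H70.PLN.DRU

set_option autoImplicit false

namespace Pool.Agent.H36.SQ

open Finset Pool.Agent.H97.RK Pool.Agent.H41.SS Pool.Agent.H47.SR
open Pool.Agent.H47.PL (Sat Agr Con dm nsol nsolL Os)
open Pool.Agent.H47.SQ (Derivation Refuted Find success sav guess AlmostAll)

private theorem geo (a : ℕ → ℕ) (X I : ℕ) (h : ∀ i, i < I → a i * 2 ^ (i + 1) ≤ X) :
    (∑ i ∈ range I, a i) * 2 ^ I + X ≤ 2 ^ I * X := by
  induction I with
  | zero => simp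
  | succ I ih =>
    have h1 := ih fun i hi => h i (by omega)
    have h2 := h I (by omega)
    rw [Finset.sum_range_succ, add_mul, pow_succ]
    rw [pow_succ] at h2
    nlinarith

private theorem con_card {n : ℕ} {L : Finset (Fin n × Bool)} (hL : Con L) : L.card ≤ n := by
  classical
  have h1 : L.card ≤ (Finset.univ : Finset (Fin n)).card := by
    refine Finset.card_le_card_of_injOn Prod.fst (fun _ _ => Finset.mem_coe.2 (Finset.mem_univ _))
      ?_
    rintro ⟨v, b⟩ hx ⟨w, c⟩ hy hxy
    have hvw : v = w := hxy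
    subst hvw
    by_cases hbc : b = c
    · rw [hbc]
    · exfalso
      have h2 : c = !b := by
        cases b <;> cases c <;> simp at hbc ⊢
      rw [h2] at hy
      exact hL v b hx hy
  rwa [Finset.card_univ, Fintype.card_fin] at h1

theorem pf_PIG : T_PIG := by
  classical
  intro n k m F Ex ω I C hC T
  induction T with
  | leaf =>
    intro L hL hF
    by_contra hcon
    push Not at hcon
    have h1 : 2 ^ (n - L.card) ≤ nsolL F L :=
      Pool.Agent.H70.PLN.nsolL_done F L hL (fun c => hF c)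
    have h2 : nsolL F L ≤ ∑ i ∈ range I, nC (C i) L := by
      have h3 : (univ.filter fun τ => Sat F τ ∧ Agr τ L) ⊆
          (range I).biUnion fun i => (C i).filter fun τ => Agr τ L := by
        intro τ hτ
        rw [Finset.mem_filter] at hτ
        obtain ⟨i, hi, hi2⟩ := hC τ hτ.2.1
        rw [Finset.mem_biUnion]
        exact ⟨i, Finset.mem_range.2 hi, Finset.mem_filter.2 ⟨hi2, hτ.2.2⟩⟩
      have h4 := (Finset.card_le_card h3).trans Finset.card_biUnion_le
      unfold nsolL nC
      exact h4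
    have hc := con_card hL
    have h5 := geo (fun i => nC (C i) L) (2 ^ (n - L.card)) I (fun i hi => by
      have h6 : ¬ Qi (C i) i L := hcon i hi
      unfold Qi at h6
      rw [not_le] at h6
      have h7 : nC (C i) L * 2 ^ (i + 1) * 2 ^ L.card ≤ 2 ^ (n - L.card) * 2 ^ L.card := by
        rw [← pow_add, Nat.sub_add_cancel hc]
        calc nC (C i) L * 2 ^ (i + 1) * 2 ^ L.card
            = 2 ^ (i + 1) * (nC (C i) L * 2 ^ L.card) := by ring
          _ ≤ 2 ^ n := h6.le
      exact Nat.le_of_mul_le_mul_right h7 (by positivity))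
    have h8 : 0 < 2 ^ (n - L.card) := by positivity
    have h9 : 2 ^ (n - L.card) * 2 ^ I ≤ (∑ i ∈ range I, nC (C i) L) * 2 ^ I :=
      Nat.mul_le_mul_right _ (h1.trans h2)
    rw [mul_comm (2 ^ (n - L.card)) (2 ^ I)] at h9
    omega
  | node v f ih =>
    intro L hL hF
    rcases hF with ⟨b, hb, hF⟩ | ⟨hv, b, hb, hF⟩
    · obtain ⟨i, hi, h1⟩ := ih b b L hL hF
      exact ⟨i, hi, Or.inl ⟨b, hb, h1⟩⟩
    · obtain ⟨i, hi, h1⟩ := ih (ω L) b (insert (v, b) L)
        (Pool.Agent.H70.PLN.con_insert hL (hv _)) hF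
      exact ⟨i, hi, Or.inr ⟨hv, b, hb, h1⟩⟩

end Pool.Agent.H36.SQ
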