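import Pool.Agent.H47.SQ.Targets

set_option autoImplicit false

namespace Pool.Agent.H36.SQ

open Finset Pool.Agent.H97.RK Pool.Agent.H41.SS Pool.Agent.H47.SR
open Pool.Agent.H47.SQ (Derivation Refuted Find success sav guess AlmostAll)

/-- falling factorials -/
private theorem desc_lower (n h k : ℕ) (y : ℝ) (hk : h + k ≤ n) (hy0 : 0 ≤ y) (hy1 : y ≤ 1)
    (hy : (h : ℝ) ≤ y * (n - k)) : ∀ j, j ≤ k →
    (1 - y) ^ j * (n.descFactorial j : ℝ) ≤ ((n - h).descFactorial j : ℝ) := by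
  intro j
  induction j with
  | zero => intro _; simp
  | succ j ih =>
    intro hj
    have h1 := ih (by omega)
    rw [Nat.descFactorial_succ, Nat.descFactorial_succ]
    push_cast
    have e1 : ((n - j : ℕ) : ℝ) = n - j := by
      rw [Nat.cast_sub (by omega)]
    have e2 : ((n - h - j : ℕ) : ℝ) = n - h - j := by
      rw [Nat.cast_sub (by omega), Nat.cast_sub (by omega)]
    rw [e1, e2]
    have hjk : (j : ℝ) ≤ k := by exact_mod_cast (by omega : j ≤ k)
    have hnj : (0 : ℝ) ≤ n - j := by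
      have : (j : ℝ) ≤ n := by exact_mod_cast (by omega : j ≤ n)
      linarith
    have h2 : (1 - y) * (n - j) ≤ (n : ℝ) - h - j := by
      have : y * (n - k) ≤ y * ((n : ℝ) - j) := mul_le_mul_of_nonneg_left (by linarith) hy0
      nlinarith
    have h3 : (0 : ℝ) ≤ (1 - y) * (n - j) := mul_nonneg (by linarith) hnj
    calc (1 - y) ^ (j + 1) * (((n : ℝ) - j) * (n.descFactorial j : ℝ))
        = ((1 - y) * (n - j)) * ((1 - y) ^ j * (n.descFactorial j : ℝ)) := by ring
      _ ≤ ((n : ℝ) - h - j) * ((n - h).descFactorial j : ℝ) :=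
          mul_le_mul h2 h1 (by
            have : (0 : ℝ) ≤ (1 - y) ^ j := pow_nonneg (by linarith) j
            positivity) (h3.trans h2)

private theorem one_sub_exp (y : ℝ) (hy1 : y ≤ 1 / 7) :
    Real.exp (-(7 / 6 * y)) ≤ 1 - y ∨ y < 0 := by
  rcases lt_or_ge y 0 with h | hy0
  · exact Or.inr h
  left
  have h1 : 0 < 1 - y := by linarith
  have h2 := Real.one_sub_inv_le_log_of_pos h1
  have h3 : -(7 / 6 * y) ≤ 1 - (1 - y)⁻¹ := by
    rw [inv_eq_one_div]
    have h4 : 1 - 1 / (1 - y) = -(y / (1 - y)) := by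
      field_simp
      ring
    rw [h4, neg_le_neg_iff, div_le_iff₀ h1]
    nlinarith
  calc Real.exp (-(7 / 6 * y)) ≤ Real.exp (Real.log (1 - y)) := Real.exp_le_exp.2 (h3.trans h2)
    _ = 1 - y := Real.exp_log h1

theorem pf_UPC : T_UPC := by
  refine ⟨1024, fun k n m hk hn hm1 hm2 => ?_⟩
  have hkR : (1024 : ℝ) ≤ k := by exact_mod_cast hk
  have hnR : 1024 * (k : ℝ) ≤ n := by exact_mod_cast hn
  have hk0 : (0 : ℝ) < k := by linarith
  have hn0 : (0 : ℝ) < n := by linarith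
  have h2k : (0 : ℝ) < 2 ^ k := by positivity
  obtain ⟨Δ, hΔ⟩ : ∃ Δ : ℝ, Δ = m / (2 ^ k * n) := ⟨_, rfl⟩
  have hm : (m : ℝ) = Δ * (2 ^ k * n) := by
    rw [hΔ]
    field_simp
  have hΔ1 : 1 ≤ Δ := by
    rw [hΔ, le_div_iff₀ (by positivity), one_mul]
    exact_mod_cast hm1
  have hΔ2 : Δ ≤ 2 ^ k := by
    rw [hΔ, div_le_iff₀ (by positivity)]
    have h1 : (m : ℝ) ≤ 4 ^ k * n := by exact_mod_cast hm2
    refine h1.trans (le_of_eq ?_)
    rw [show (4 : ℝ) = 2 * 2 by norm_num, mul_pow]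
    ring
  obtain ⟨L, hL⟩ : ∃ L : ℝ, L = Real.log (k * (1 + Δ)) := ⟨_, rfl⟩
  have hsav : sav n k m = L / k := by
    unfold sav
    rw [hL, hΔ]
  have hlog2 := Real.log_two_gt_d9
  have hlog2' := Real.log_two_lt_d9
  have hlogk : 6 ≤ Real.log k := by
    have h1 : Real.log ((2 : ℝ) ^ 10) ≤ Real.log k := Real.log_le_log (by norm_num) (by
      norm_num
      linarith)
    rw [Real.log_pow] at h1
    push_cast at h1
    linarith
  have hLk : Real.log k ≤ L := by
    rw [hL]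
    exact Real.log_le_log hk0 (le_mul_of_one_le_right hk0.le (by linarith))
  have hL6 : 6 ≤ L := hlogk.trans hLk
  have hLle : L ≤ k := by
    have h1 : (k : ℝ) * (1 + Δ) ≤ 2 * k * 2 ^ k := by
      have h2 : (1 : ℝ) ≤ 2 ^ k := one_le_pow₀ (by norm_num)
      calc (k : ℝ) * (1 + Δ) ≤ k * (2 ^ k + 2 ^ k) :=
            mul_le_mul_of_nonneg_left (by linarith) hk0.le
        _ = 2 * k * 2 ^ k := by ring
    have h2 : 2 * (k : ℝ) ≤ Real.exp (3 / 10 * k) := by
      have h3 := Real.quadratic_le_exp_of_nonneg (x := 3 / 10 * (k : ℝ)) (by positivity)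
      have h4 : (3 / 10 * (k : ℝ)) ^ 2 / 2 = 9 / 200 * (k * k) := by ring
      have h5 : 1024 * (k : ℝ) ≤ k * k := mul_le_mul_of_nonneg_right hkR hk0.le
      linarith
    have h3 : (2 : ℝ) ^ k ≤ Real.exp (7 / 10 * k) := by
      rw [← Real.rpow_natCast, Real.rpow_def_of_pos (by norm_num)]
      apply Real.exp_le_exp.2
      exact mul_le_mul_of_nonneg_right (by linarith) hk0.le
    have h4 : 2 * (k : ℝ) * 2 ^ k ≤ Real.exp k := by
      calc 2 * (k : ℝ) * 2 ^ k ≤ Real.exp (3 / 10 * k) * Real.exp (7 / 10 * k) :=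
            mul_le_mul h2 h3 h2k.le (Real.exp_pos _).le
        _ = Real.exp k := by
            rw [← Real.exp_add]
            congr 1
            ring
    have h5 := Real.log_le_log (mul_pos hk0 (by linarith : 0 < 1 + Δ)) (h1.trans h4)
    rw [Real.log_exp, ← hL] at h5
    exact h5
  -- the numbers h and u
  obtain ⟨Z, hZ⟩ : ∃ Z : ℝ, Z = L * (n / k) := ⟨_, rfl⟩
  have hx : 1024 ≤ (n : ℝ) / k := by
    rw [le_div_iff₀ hk0]
    exact hnR
  have hZn : Z ≤ n := by
    rw [hZ]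
    calc L * (n / k) ≤ k * (n / k) := mul_le_mul_of_nonneg_right hLle (by positivity)
      _ = n := by field_simp
  have hZ1 : 6 * 1024 ≤ Z := by
    rw [hZ]
    exact mul_le_mul hL6 hx (by norm_num) (by linarith)
  obtain ⟨h, hh⟩ : ∃ h : ℕ, h = ⌊Z / 8⌋₊ := ⟨_, rfl⟩
  have hh1 : (h : ℝ) ≤ Z / 8 := by
    rw [hh]
    exact Nat.floor_le (by linarith)
  have hh2 : Z / 8 < h + 1 := by
    rw [hh]
    exact Nat.lt_floor_add_one _
  have hhn8 : (h : ℝ) ≤ n / 8 := by linarith
  obtain ⟨u, hu⟩ : ∃ u : ℕ, u = (h + 1) / 2 := ⟨_, rfl⟩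
  have hu1 : h ≤ 2 * u := by omega
  have hu2 : 2 * u ≤ h + 1 := by omega
  have hu1' : (h : ℝ) ≤ 2 * u := by exact_mod_cast hu1
  have hu2' : 2 * (u : ℝ) ≤ h + 1 := by exact_mod_cast hu2
  have hhn : h ≤ n := by
    have : (h : ℝ) ≤ n := by linarith
    exact_mod_cast this
  have hhkn : h + k ≤ n := by
    have : (h : ℝ) + k ≤ n := by linarith
    exact_mod_cast this
  have hunR : (u : ℝ) ≤ n := by linarith
  refine ⟨h, u, by omega, hhn, ?_, ?_⟩
  · rw [hsav]
    have h1 : 1 / 20 * (L / k) * n = Z / 20 := by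
      rw [hZ]
      ring
    rw [h1]
    linarith
  -- the ratio of the falling factorials
  obtain ⟨y, hy⟩ : ∃ y : ℝ, y = h / (n - k) := ⟨_, rfl⟩
  have hnk : (0 : ℝ) < n - k := by linarith
  have hy0 : 0 ≤ y := by rw [hy]; positivity
  have hyh : (h : ℝ) ≤ y * (n - k) := by
    rw [hy]
    field_simp
    exact le_refl _
  have hyk : y * k ≤ 8 / 7 * (L / 8) := by
    rw [hy, div_mul_eq_mul_div, div_le_iff₀ hnk]
    have h1 : (h : ℝ) * k ≤ L / 8 * n := by
      calc (h : ℝ) * k ≤ Z / 8 * k := mul_le_mul_of_nonneg_right hh1 hk0.le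
        _ = L / 8 * n := by
            rw [hZ]
            field_simp
    refine h1.trans ?_
    have h2 : (n : ℝ) ≤ 8 / 7 * (n - k) := by linarith
    calc L / 8 * n ≤ L / 8 * (8 / 7 * (n - k)) := mul_le_mul_of_nonneg_left h2 (by linarith)
      _ = _ := by ring
  have hy17 : y ≤ 1 / 7 := by
    have h1 : y * k ≤ 1 / 7 * k := by linarith
    exact le_of_mul_le_mul_right h1 hk0
  have hρ : Real.exp (-(L / 6)) ≤ (1 - y) ^ k := by
    rcases one_sub_exp y hy17 with h1 | h1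
    · calc Real.exp (-(L / 6)) ≤ Real.exp (-(7 / 6 * y)) ^ k := by
            rw [← Real.exp_nat_mul]
            apply Real.exp_le_exp.2
            linarith
        _ ≤ (1 - y) ^ k := pow_le_pow_left₀ (Real.exp_pos _).le h1 k
    · exact absurd h1 (not_lt.2 hy0)
  obtain ⟨j, hj⟩ : ∃ j, k = j + 1 := ⟨k - 1, by omega⟩
  have hkj : k - 1 = j := by omega
  obtain ⟨A, hA⟩ : ∃ A : ℝ, A = ((n - h).descFactorial (k - 1) : ℝ) := ⟨_, rfl⟩
  obtain ⟨B, hB⟩ : ∃ B : ℝ, B = (n.descFactorial (k - 1) : ℝ) := ⟨_, rfl⟩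
  have hB0 : 0 < B := by
    rw [hB]
    have := Nat.descFactorial_pos.2 (by omega : k - 1 ≤ n)
    exact_mod_cast this
  have hAB : A ≤ B := by
    rw [hA, hB]
    exact_mod_cast Nat.descFactorial_le (k - 1) (Nat.sub_le n h)
  have hA0 : 0 ≤ A := by rw [hA]; exact Nat.cast_nonneg _
  have hAρ : Real.exp (-(L / 6)) * B ≤ A := by
    have h1 := desc_lower n h k y hhkn hy0 (by linarith) hyh (k - 1) (by omega)
    rw [← hA, ← hB] at h1
    refine le_trans (mul_le_mul_of_nonneg_right ?_ hB0.le) h1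
    refine hρ.trans ?_
    rw [hkj, hj]
    exact pow_le_pow_of_le_one (by linarith) (by linarith) (Nat.le_succ j)
  have hBk : (n.descFactorial k : ℝ) = (n - k + 1) * B := by
    rw [hB, hkj, hj, Nat.descFactorial_succ]
    push_cast
    rw [Nat.cast_sub (by omega)]
    ring
  have hΔk : 8 ≤ Δ * k * Real.exp (-(L / 6)) := by
    have h1 : Real.exp L = k * (1 + Δ) := by
      rw [hL, Real.exp_log (mul_pos hk0 (by linarith))]
    have h2 : (8 * Real.exp (L / 6)) ^ 6 ≤ (Δ * k) ^ 6 := by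
      rw [mul_pow, ← Real.exp_nat_mul]
      have h3 : ((6 : ℕ) : ℝ) * (L / 6) = L := by
        push_cast
        ring
      rw [h3, h1]
      have h40 : 1 * (k : ℝ) ≤ Δ * k := mul_le_mul_of_nonneg_right hΔ1 hk0.le
      have h4 : (k : ℝ) * (1 + Δ) ≤ 2 * (Δ * k) := by linarith
      have h5 : (16 : ℝ) ≤ Δ * k := by linarith
      have h6 : (16 : ℝ) ^ 5 ≤ (Δ * k) ^ 5 := pow_le_pow_left₀ (by norm_num) h5 5
      calc (8 : ℝ) ^ 6 * (k * (1 + Δ)) ≤ 8 ^ 6 * (2 * (Δ * k)) :=
            mul_le_mul_of_nonneg_left h4 (by norm_num)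
        _ = 8 ^ 6 * 2 * (Δ * k) := by ring
        _ ≤ (Δ * k) ^ 5 * (Δ * k) := by
            refine mul_le_mul_of_nonneg_right (le_trans ?_ h6) (by linarith)
            norm_num
        _ = (Δ * k) ^ 6 := by ring
    have h3 : 8 * Real.exp (L / 6) ≤ Δ * k :=
      le_of_pow_le_pow_left₀ (by norm_num) (by positivity) h2
    rw [Real.exp_neg, ← div_eq_mul_inv, le_div_iff₀ (Real.exp_pos _)]
    exact h3
  obtain ⟨p, hp⟩ : ∃ p : ℝ, p = k * A / ((2 ^ k - 1) * (n.descFactorial k : ℝ)) := ⟨_, rfl⟩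
  have h2k1 : 2 * (k : ℝ) ≤ 2 ^ k - 1 := by
    have h1 : 2 * k + 1 ≤ 2 ^ k := by
      have h2 : ∀ i : ℕ, 2 * (i + 3) + 1 ≤ 2 ^ (i + 3) := by
        intro i
        induction i with
        | zero => norm_num
        | succ i ih =>
          rw [show i + 1 + 3 = (i + 3) + 1 by ring, pow_succ]
          omega
      obtain ⟨i, hi⟩ : ∃ i, k = i + 3 := ⟨k - 3, by omega⟩
      rw [hi]
      exact h2 i
    have h3 : (2 * (k : ℝ) + 1) ≤ 2 ^ k := by exact_mod_cast h1
    linarith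
  have hden : 0 < (2 ^ k - 1) * (n.descFactorial k : ℝ) := by
    rw [hBk]
    have h1 : (0 : ℝ) < 2 ^ k - 1 := by linarith
    have h2 : (0 : ℝ) < n - k + 1 := by linarith
    positivity
  have hp0 : 0 ≤ p := by
    rw [hp]
    exact div_nonneg (mul_nonneg hk0.le hA0) hden.le
  have hup : u * p ≤ 1 := by
    rw [hp, ← mul_div_assoc, div_le_one hden, hBk]
    have h1 : (u : ℝ) ≤ 2 * (n - k + 1) := by linarith
    have h2 : (0 : ℝ) ≤ n - k + 1 := by linarith
    calc (u : ℝ) * (k * A) ≤ (2 * (n - k + 1)) * (k * B) :=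
          mul_le_mul h1 (mul_le_mul_of_nonneg_left hAB hk0.le) (mul_nonneg hk0.le hA0)
            (by linarith)
      _ = (2 * k) * ((n - k + 1) * B) := by ring
      _ ≤ (2 ^ k - 1) * ((n - k + 1) * B) :=
          mul_le_mul_of_nonneg_right h2k1 (mul_nonneg h2 hB0.le)
  have hmp : 8 ≤ m * p := by
    rw [hp, ← mul_div_assoc, le_div_iff₀ hden, hBk, hm]
    have h1 : (0 : ℝ) ≤ 2 ^ k * n * B := by positivity
    have h2 : 8 * ((2 ^ k - 1) * ((n - k + 1) * B)) ≤ 8 * (2 ^ k * n * B) := by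
      have h3 : ((2 : ℝ) ^ k - 1) * (n - k + 1) ≤ 2 ^ k * n :=
        mul_le_mul (by linarith) (by linarith) (by linarith) h2k.le
      have h4 := mul_le_mul_of_nonneg_right h3 hB0.le
      linarith
    refine h2.trans ?_
    calc 8 * (2 ^ k * n * B) ≤ (Δ * k * Real.exp (-(L / 6))) * (2 ^ k * n * B) :=
          mul_le_mul_of_nonneg_right hΔk h1
      _ = Δ * (2 ^ k * n) * (k * (Real.exp (-(L / 6)) * B)) := by ring
      _ ≤ Δ * (2 ^ k * n) * (k * A) := by
          refine mul_le_mul_of_nonneg_left (mul_le_mul_of_nonneg_left hAρ hk0.le) ?_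
          positivity
  have hlogn : Real.log n ≤ 3 * h := by
    have h1 : Real.log n = Real.log k + Real.log (n / k) := by
      rw [Real.log_div hn0.ne' hk0.ne']
      ring
    have h2 : Real.log (n / k) ≤ n / k - 1 := Real.log_le_sub_one_of_pos (by positivity)
    have h3 : Real.log k * (n / k) ≤ Z := by
      rw [hZ]
      exact mul_le_mul_of_nonneg_right hLk (by positivity)
    have h4 : Real.log k * 1024 ≤ Real.log k * (n / k) :=
      mul_le_mul_of_nonneg_left hx (by linarith)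
    have h5 : 6 * ((n : ℝ) / k) ≤ Real.log k * (n / k) :=
      mul_le_mul_of_nonneg_right hlogk (by positivity)
    linarith
  have hexpn : (n : ℝ) ≤ Real.exp (3 * h) := by
    rw [← Real.exp_log hn0]
    exact Real.exp_le_exp.2 hlogn
  have hexp2 : (2 : ℝ) ^ h ≤ Real.exp h := by
    rw [← Real.rpow_natCast, Real.rpow_def_of_pos (by norm_num)]
    apply Real.exp_le_exp.2
    calc Real.log 2 * (h : ℝ) ≤ 1 * h :=
          mul_le_mul_of_nonneg_right (by linarith) (Nat.cast_nonneg _)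
      _ = h := one_mul _
  have hexp3 : (1 - u * p) ^ m ≤ Real.exp (-(4 * h)) := by
    calc (1 - u * p) ^ m ≤ Real.exp (-(u * p)) ^ m :=
          pow_le_pow_left₀ (by linarith) (Real.one_sub_le_exp_neg _) m
      _ = Real.exp (-(u * (m * p))) := by
          rw [← Real.exp_nat_mul]
          congr 1
          ring
      _ ≤ Real.exp (-(4 * h)) := by
          apply Real.exp_le_exp.2
          have h1 : (u : ℝ) * 8 ≤ u * (m * p) := mul_le_mul_of_nonneg_left hmp (Nat.cast_nonneg _)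
          linarith
  rw [← hA, ← hp]
  have h0 : (0 : ℝ) ≤ (1 - u * p) ^ m := pow_nonneg (by linarith) m
  calc (n : ℝ) * (2 ^ h * (1 - u * p) ^ m)
      ≤ Real.exp (3 * h) * (Real.exp h * Real.exp (-(4 * h))) := by
        refine mul_le_mul hexpn (mul_le_mul hexp2 hexp3 h0 (Real.exp_pos _).le) ?_
          (Real.exp_pos _).le
        positivity
    _ = 1 := by
        rw [← Real.exp_add, ← Real.exp_add]
        rw [show (3 : ℝ) * h + (h + -(4 * h)) = 0 by ring, Real.exp_zero]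

end Pool.Agent.H36.SQ
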